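import Pool.Agent.Y998.LQ.Defs4

/-!
# Project LR of helper998, statement BAD (helper858)

A return to `B` within `K` steps of the cycle is unlikely.
-/

set_option autoImplicit false

namespace Pool.Agent.Y858.LR

open Finset Equiv Pool.Agent.Y998.ST

section gen

variable {V : Type} [Fintype V] [DecidableEq V]

/-- marginal of the chain -/
theorem marg {J : V → V → ℝ} (hs : ∀ x y, J x y = J y x) (h0 : ∀ x, J x x = 0) {K : ℕ}
    (v b : V) (t : ℝ) (i : Fin K) :
    ∑ y : Fin K → V, (if y i = b then VV J K t (pre v y) y else 0) =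
      qq J ((i : ℕ) * t + t) v b := by
  obtain ⟨k, hk⟩ : ∃ k : ℕ → V → V → ℝ, k = fun l x w =>
    if l = (i : ℕ) then qq J t x b * (if w = b then 1 else 0) else qq J t x w := ⟨_, rfl⟩
  have e1 : ∀ y : Fin K → V, (if y i = b then VV J K t (pre v y) y else 0) =
      ∏ l : Fin K, k l (pre v y l) (y l) := by
    intro y
    by_cases h : y i = b
    · rw [if_pos h]
      unfold VV
      refine Finset.prod_congr rfl fun l _ => ?_
      rw [hk]
      simp only
      by_cases hli : (l : ℕ) = i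
      · have : l = i := Fin.ext hli
        subst this
        rw [if_pos rfl, if_pos h, mul_one, h]
      · rw [if_neg hli]
    · rw [if_neg h]
      symm
      refine Finset.prod_eq_zero (Finset.mem_univ i) ?_
      rw [hk]
      simp only [if_true, if_neg h, mul_zero]
  simp only [e1]
  have h1 := one_special (q := qq J t) (qq_row J t) (fun x => qq J t x b)
      (fun w => if w = b then 1 else 0)
      (by rw [Finset.sum_ite_eq', if_pos (Finset.mem_univ _)]) (i : ℕ) K k v i.2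
      (fun l hl => by funext x w; rw [hk]; simp only; rw [if_neg hl])
      (fun x w => by rw [hk]; simp only [if_true])
  unfold CS at h1
  rw [h1, mulVec_qq hs h0]

open Classical in
/-- the law of the first `K` steps of the cycle determines the probability of a visit -/
theorem visit_eq (J : V → V → ℝ) (t : ℝ) (K : ℕ) (z : V) (B : Finset V) :
    stirExp J t (fun g => if ∃ m, 1 ≤ m ∧ m ≤ K ∧ (g ^ m) z ∈ B then 1 else 0) =
      ∑ y : Fin K → V, (if ∃ i, y i ∈ B then UU J K t (pre z y) y else 0) := by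
  rw [← Finset.sum_filter]
  unfold UU
  rw [exp_sum]
  congr 1
  funext g
  rw [Finset.sum_filter]
  rw [Finset.sum_eq_single (fun i : Fin K => (g ^ ((i : ℕ) + 1)) z)]
  · have h1 : act g (pre z (fun i : Fin K => (g ^ ((i : ℕ) + 1)) z)) =
        (fun i : Fin K => (g ^ ((i : ℕ) + 1)) z) := by
      rw [act_pre]
      exact fun i => rfl
    rw [if_pos h1]
    have h2 : (∃ m, 1 ≤ m ∧ m ≤ K ∧ (g ^ m) z ∈ B) ↔
        ∃ i : Fin K, (g ^ ((i : ℕ) + 1)) z ∈ B := by
      constructor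
      · rintro ⟨m, h1, h2, h3⟩
        refine ⟨⟨m - 1, by omega⟩, ?_⟩
        show (g ^ (m - 1 + 1)) z ∈ B
        rwa [Nat.sub_add_cancel h1]
      · rintro ⟨i, hi⟩
        exact ⟨(i : ℕ) + 1, by omega, i.2, hi⟩
    by_cases h3 : ∃ i : Fin K, (g ^ ((i : ℕ) + 1)) z ∈ B
    · rw [if_pos (h2.2 h3), if_pos h3]
    · rw [if_neg (fun h => h3 (h2.1 h)), if_neg h3]
  · intro y _ hy
    have h1 : ¬ (act g (pre z y) = y) := by
      intro h
      apply hy
      funext i
      rw [(act_pre g z y).1 h i]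
    rw [if_neg h1, ite_self]
  · intro h
    exact absurd (Finset.mem_univ _) h

open Classical in
/-- The general bound. -/
theorem bad_gen {J : V → V → ℝ} (hJ : ∀ x y, 0 ≤ J x y) (hs : ∀ x y, J x y = J y x)
    (h0 : ∀ x, J x x = 0) {K : ℕ} {r : ℝ} (hr : ∀ x, ∑ y, J x y ≤ r) (hr0 : 0 ≤ r) (z : V)
    {t : ℝ} (ht : 0 ≤ t) (Q : ℕ → ℝ)
    (hQ : ∀ m : ℕ, 0 < m → ∀ a b, qq J (m * t) a b ≤ Q m) (B : Finset V) :
    stirExp J t (fun g => if ∃ m, 1 ≤ m ∧ m ≤ K ∧ (g ^ m) z ∈ B then 1 else 0) ≤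
      B.card * (∑ i ∈ range K, Q (i + 1)) +
        2 * ((1 + 2 * r * t) * (K * ∑ m ∈ Finset.Ioo 0 K, Q m)) := by
  have hmain := (main_gen (K := K) hJ hs h0 hr hr0 z ht Q (fun m h1 _ => hQ m h1)).2
  have hUV : ∑ y : Fin K → V, |UU J K t (pre z y) y - VV J K t (pre z y) y| ≤
      2 * ((1 + 2 * r * t) * (K * ∑ m ∈ Finset.Ioo 0 K, Q m)) := by
    refine le_trans (le_of_eq (Finset.sum_congr rfl fun y _ => ?_)) hmain
    have e1 : stirExp J t (fun g => if ∀ i : Fin K,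
        (g ^ ((i : ℕ) + 1)) z = y i then 1 else 0) = UU J K t (pre z y) y := by
      unfold UU
      simp only [act_pre]
    rw [e1]
    rfl
  have hVn : ∀ y : Fin K → V, 0 ≤ VV J K t (pre z y) y := fun y => VV_nonneg hJ K ht _ _
  have h1 : ∀ y : Fin K → V, (if ∃ i, y i ∈ B then UU J K t (pre z y) y else 0) ≤
      (∑ i : Fin K, ∑ b ∈ B, (if y i = b then VV J K t (pre z y) y else 0)) +
        |UU J K t (pre z y) y - VV J K t (pre z y) y| := by
    intro y
    have hnn : ∀ i : Fin K, ∀ b ∈ B, 0 ≤ (if y i = b then VV J K t (pre z y) y else 0) := by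
      intro i b _
      split_ifs
      · exact hVn y
      · exact le_rfl
    by_cases h : ∃ i, y i ∈ B
    · rw [if_pos h]
      obtain ⟨i, hi⟩ := h
      have h2 : VV J K t (pre z y) y ≤
          ∑ i : Fin K, ∑ b ∈ B, (if y i = b then VV J K t (pre z y) y else 0) := by
        calc VV J K t (pre z y) y = (if y i = y i then VV J K t (pre z y) y else 0) := by
              rw [if_pos rfl]
          _ ≤ ∑ b ∈ B, (if y i = b then VV J K t (pre z y) y else 0) :=
              Finset.single_le_sum (f := fun b => (if y i = b then VV J K t (pre z y) y else 0))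
                (hnn i) hi
          _ ≤ _ := Finset.single_le_sum
              (f := fun i => ∑ b ∈ B, (if y i = b then VV J K t (pre z y) y else 0))
              (fun i _ => Finset.sum_nonneg (hnn i)) (Finset.mem_univ i)
      have h3 := le_abs_self (UU J K t (pre z y) y - VV J K t (pre z y) y)
      linarith
    · rw [if_neg h]
      exact add_nonneg (Finset.sum_nonneg fun i _ => Finset.sum_nonneg (hnn i)) (abs_nonneg _)
  rw [visit_eq]
  refine (Finset.sum_le_sum fun y _ => h1 y).trans ?_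
  rw [Finset.sum_add_distrib]
  refine add_le_add ?_ hUV
  rw [Finset.sum_comm]
  have h2 : ∀ i : Fin K, ∑ y : Fin K → V, ∑ b ∈ B,
      (if y i = b then VV J K t (pre z y) y else 0) ≤ B.card * Q ((i : ℕ) + 1) := by
    intro i
    rw [Finset.sum_comm, ← nsmul_eq_mul]
    refine Finset.sum_le_card_nsmul _ _ _ fun b _ => ?_
    rw [marg hs h0]
    have h3 := hQ ((i : ℕ) + 1) (Nat.succ_pos _) z b
    refine le_trans (le_of_eq ?_) h3
    congr 1
    push_cast
    ring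
  refine (Finset.sum_le_sum fun i _ => h2 i).trans (le_of_eq ?_)
  rw [← Finset.mul_sum, ← Fin.sum_univ_eq_sum_range (fun i => Q (i + 1)) K]

end gen

theorem sqrt_pow (s : ℝ) (hs : 0 < s) (d : ℕ) :
    (1 / Real.sqrt s) ^ d = s ^ (-((d : ℝ) / 2)) := by
  rw [Real.sqrt_eq_rpow, one_div, ← Real.rpow_neg hs.le, ← Real.rpow_natCast, ← Real.rpow_mul hs.le]
  congr 1
  ring

theorem t_BAD : Pool.Agent.Y998.LQ.S_BAD := by
  intro d hd
  have hd3 : (3 : ℝ) ≤ d := by exact_mod_cast hd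
  have hsum : Summable fun n : ℕ => 1 / (n : ℝ) ^ ((d : ℝ) / 2) :=
    Real.summable_one_div_nat_rpow.2 (by linarith)
  obtain ⟨Z, hZ⟩ : ∃ Z : ℝ, Z = ∑' n : ℕ, 1 / (n : ℝ) ^ ((d : ℝ) / 2) := ⟨_, rfl⟩
  have hZ0 : 0 ≤ Z := by rw [hZ]; exact tsum_nonneg fun n => by positivity
  refine ⟨2 * (5 * d * 2 ^ d * (1 + Z)), by positivity, fun L _ hL t ht K B z => ?_⟩
  have ht0 : 0 < t := by linarith
  have hLpos : (0 : ℝ) < L := by exact_mod_cast (show 0 < L by omega)
  obtain ⟨Q, hQdef⟩ : ∃ Q : ℕ → ℝ, Q = fun m : ℕ =>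
    2 ^ d * ((1 / (L : ℝ)) ^ d + t ^ (-((d : ℝ) / 2)) * (1 / (m : ℝ) ^ ((d : ℝ) / 2))) := ⟨_, rfl⟩
  have hQ : ∀ m : ℕ, 0 < m → ∀ a b, qq (nnRate d L) (m * t) a b ≤ Q m := by
    intro m hm a b
    have hm0 : (0 : ℝ) < m := by exact_mod_cast hm
    have hmt : (0 : ℝ) < m * t := by positivity
    refine (qq_torus hL hmt a b).trans ?_
    refine (add_pow_le (by positivity) (by positivity) d).trans ?_
    rw [sqrt_pow _ hmt, hQdef]
    have h1 : ((m : ℝ) * t) ^ (-((d : ℝ) / 2)) =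
        t ^ (-((d : ℝ) / 2)) * (1 / (m : ℝ) ^ ((d : ℝ) / 2)) := by
      rw [Real.mul_rpow hm0.le ht0.le, Real.rpow_neg hm0.le ((d : ℝ) / 2)]
      ring
    rw [h1]
    refine mul_le_mul_of_nonneg_right ?_ (by positivity)
    exact pow_le_pow_right₀ (by norm_num) (by omega)
  have hrow : ∀ x : Fin d → ZMod L, ∑ y, nnRate d L x y ≤ 2 * (d : ℝ) := fun x =>
    (nn_row hL x).le
  have hmain := bad_gen (K := K) nn_nonneg nn_symm (nn_diag hL) hrow (by positivity) z ht0.le Q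
    hQ B
  have hS : ∑ m ∈ Finset.Ioo 0 K, Q m ≤
      2 ^ d * (K * (1 / (L : ℝ)) ^ d + t ^ (-((d : ℝ) / 2)) * Z) := by
    rw [hQdef, ← Finset.mul_sum]
    refine mul_le_mul_of_nonneg_left ?_ (by positivity)
    rw [Finset.sum_add_distrib, ← Finset.mul_sum]
    refine add_le_add ?_ (mul_le_mul_of_nonneg_left ?_ (by positivity))
    · rw [Finset.sum_const, nsmul_eq_mul]
      refine mul_le_mul_of_nonneg_right ?_ (by positivity)
      rw [Nat.card_Ioo]
      exact_mod_cast (show K - 0 - 1 ≤ K by omega)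
    · rw [hZ]
      exact hsum.sum_le_tsum _ fun m _ => by positivity
  have hS2 : ∑ i ∈ Finset.range K, Q (i + 1) ≤
      2 ^ d * (K * (1 / (L : ℝ)) ^ d + t ^ (-((d : ℝ) / 2)) * Z) := by
    rw [hQdef, ← Finset.mul_sum]
    refine mul_le_mul_of_nonneg_left ?_ (by positivity)
    rw [Finset.sum_add_distrib, ← Finset.mul_sum]
    refine add_le_add ?_ (mul_le_mul_of_nonneg_left ?_ (by positivity))
    · rw [Finset.sum_const, nsmul_eq_mul, Finset.card_range]
    · rw [hZ]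
      have h1 : ∑ i ∈ Finset.range K, 1 / (((i + 1 : ℕ)) : ℝ) ^ ((d : ℝ) / 2) ≤
          ∑ n ∈ Finset.range (K + 1), 1 / (n : ℝ) ^ ((d : ℝ) / 2) := by
        rw [Finset.sum_range_succ' (fun n : ℕ => 1 / (n : ℝ) ^ ((d : ℝ) / 2)) K]
        have : 0 ≤ 1 / ((0 : ℕ) : ℝ) ^ ((d : ℝ) / 2) := by positivity
        linarith
      exact h1.trans (hsum.sum_le_tsum _ fun m _ => by positivity)
  have hX : (1 + 2 * (2 * (d : ℝ)) * t) * (K * ∑ m ∈ Finset.Ioo 0 K, Q m) ≤
      5 * d * 2 ^ d * (1 + Z) * (K * t ^ (1 - (d : ℝ) / 2) + (K : ℝ) ^ 2 * t / (L : ℝ) ^ d) := by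
    have h1 : 1 + 2 * (2 * (d : ℝ)) * t ≤ 5 * d * t := by nlinarith
    have h2 : t ^ (1 - (d : ℝ) / 2) = t * t ^ (-((d : ℝ) / 2)) := by
      rw [sub_eq_add_neg, Real.rpow_add ht0, Real.rpow_one]
    have h3 : 0 ≤ t ^ (-((d : ℝ) / 2)) := by positivity
    have hK : (0 : ℝ) ≤ K := by positivity
    have hQn : 0 ≤ ∑ m ∈ Finset.Ioo 0 K, Q m := by
      refine Finset.sum_nonneg fun m _ => ?_
      rw [hQdef]
      positivity
    calc (1 + 2 * (2 * (d : ℝ)) * t) * (K * ∑ m ∈ Finset.Ioo 0 K, Q m)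
        ≤ (5 * d * t) * (K * (2 ^ d * (K * (1 / (L : ℝ)) ^ d + t ^ (-((d : ℝ) / 2)) * Z))) := by
          refine mul_le_mul h1 (mul_le_mul_of_nonneg_left hS hK) (by positivity) (by positivity)
      _ = 5 * d * 2 ^ d * (Z * (K * (t * t ^ (-((d : ℝ) / 2)))) +
            1 * ((K : ℝ) ^ 2 * t / (L : ℝ) ^ d)) := by
          rw [one_div_pow]
          ring
      _ ≤ 5 * d * 2 ^ d * ((1 + Z) * (K * (t * t ^ (-((d : ℝ) / 2)))) +
            (1 + Z) * ((K : ℝ) ^ 2 * t / (L : ℝ) ^ d)) := by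
          refine mul_le_mul_of_nonneg_left (add_le_add (mul_le_mul_of_nonneg_right ?_ ?_)
            (mul_le_mul_of_nonneg_right ?_ ?_)) (by positivity)
          · linarith
          · positivity
          · linarith
          · positivity
      _ = _ := by rw [h2]; ring
  have hY : (B.card : ℝ) * ∑ i ∈ Finset.range K, Q (i + 1) ≤
      2 * (5 * d * 2 ^ d * (1 + Z)) *
        (B.card * (t ^ (-((d : ℝ) / 2)) + K / (L : ℝ) ^ d)) := by
    have h1 : 2 ^ d * (K * (1 / (L : ℝ)) ^ d + t ^ (-((d : ℝ) / 2)) * Z) ≤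
        2 ^ d * ((1 + Z) * (t ^ (-((d : ℝ) / 2)) + K / (L : ℝ) ^ d)) := by
      refine mul_le_mul_of_nonneg_left ?_ (by positivity)
      have h2 : K * (1 / (L : ℝ)) ^ d = K / (L : ℝ) ^ d := by
        rw [one_div_pow]
        ring
      have h3 : 0 ≤ t ^ (-((d : ℝ) / 2)) := by positivity
      have h4 : 0 ≤ (K : ℝ) / (L : ℝ) ^ d := by positivity
      rw [h2]
      nlinarith
    have h5 : 2 ^ d * ((1 + Z) * (t ^ (-((d : ℝ) / 2)) + K / (L : ℝ) ^ d)) ≤
        2 * (5 * d * 2 ^ d * (1 + Z)) * (t ^ (-((d : ℝ) / 2)) + K / (L : ℝ) ^ d) := by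
      have h6 : 0 ≤ 2 ^ d * ((1 + Z) * (t ^ (-((d : ℝ) / 2)) + K / (L : ℝ) ^ d)) := by positivity
      have h7 : 2 * (5 * d * 2 ^ d * (1 + Z)) * (t ^ (-((d : ℝ) / 2)) + K / (L : ℝ) ^ d) =
          (10 * d) * (2 ^ d * ((1 + Z) * (t ^ (-((d : ℝ) / 2)) + K / (L : ℝ) ^ d))) := by ring
      rw [h7]
      nlinarith
    calc (B.card : ℝ) * ∑ i ∈ Finset.range K, Q (i + 1)
        ≤ B.card * (2 * (5 * d * 2 ^ d * (1 + Z)) *
            (t ^ (-((d : ℝ) / 2)) + K / (L : ℝ) ^ d)) :=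
          mul_le_mul_of_nonneg_left (hS2.trans (h1.trans h5)) (by positivity)
      _ = _ := by ring
  refine hmain.trans ?_
  have hfin : 2 * (5 * d * 2 ^ d * (1 + Z)) *
      (B.card * (t ^ (-((d : ℝ) / 2)) + K / (L : ℝ) ^ d) +
        (K * t ^ (1 - (d : ℝ) / 2) + (K : ℝ) ^ 2 * t / (L : ℝ) ^ d)) =
      2 * (5 * d * 2 ^ d * (1 + Z)) *
        (B.card * (t ^ (-((d : ℝ) / 2)) + K / (L : ℝ) ^ d)) +
      2 * (5 * d * 2 ^ d * (1 + Z) *
        (K * t ^ (1 - (d : ℝ) / 2) + (K : ℝ) ^ 2 * t / (L : ℝ) ^ d)) := by ring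
  rw [hfin]
  exact add_le_add hY (mul_le_mul_of_nonneg_left hX (by norm_num))

end Pool.Agent.Y858.LR
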